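import Pool.Agent.helper36.PT.Spec
import Pool.Agent.helper71.AA.L1a

/-!
# Row pt:PTW (pointwise bound for the combined weight)
-/

set_option autoImplicit false

namespace Pool.Agent.PT

open Finset Pool.Agent.helper71.AA

lemma PTW_dvd_iff {a p l : ℕ} (h : 1 ≤ a * p ^ 2) :
    ((l : ℤ) ∣ (a : ℤ) * (p : ℤ) ^ 2 - 1) ↔ l ∣ a * p ^ 2 - 1 := by
  have h1 : ((a * p ^ 2 - 1 : ℕ) : ℤ) = (a : ℤ) * (p : ℤ) ^ 2 - 1 := by
    rw [Nat.cast_sub h]; push_cast; ring
  rw [← h1]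
  exact Int.natCast_dvd_natCast

lemma PTW_Sg_empty (Q : Finset ℕ) (R : ℝ) : Sg Q R ∅ = Gs Q R := by
  unfold Sg Gs
  refine sum_congr rfl fun K _ => ?_
  have : ch K ∅ = 1 := by
    unfold ch
    refine prod_eq_one fun l _ => ?_
    simp
  rw [this]

lemma PTW_pr_erase (Q : Finset ℕ) (p : ℕ) (R : ℝ) : Pool.Agent.helper71.AA.Sub (Q.erase p) R ⊆ Pool.Agent.helper71.AA.Sub Q R := by
  intro K hK
  unfold Pool.Agent.helper71.AA.Sub at hK ⊢
  rw [mem_filter, mem_powerset] at hK ⊢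
  exact ⟨hK.1.trans (erase_subset _ _), hK.2⟩

lemma PTW_ph_pos {Q K : Finset ℕ} (hQ : ∀ l ∈ Q, 2 ≤ l) (hK : K ⊆ Q) : 0 < ph K := by
  unfold ph
  refine prod_pos fun l hl => ?_
  have : (2 : ℝ) ≤ (l : ℝ) := by exact_mod_cast hQ l (hK hl)
  linarith

lemma PTW_Gs_nonneg {Q : Finset ℕ} (hQ : ∀ l ∈ Q, 2 ≤ l) (R : ℝ) : 0 ≤ Gs Q R := by
  unfold Gs
  refine sum_nonneg fun K hK => ?_
  have hKQ : K ⊆ Q := by
    unfold Pool.Agent.helper71.AA.Sub at hK
    exact mem_powerset.1 (mem_filter.1 hK).1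
  have := PTW_ph_pos hQ hKQ
  positivity

lemma PTW_Gs_mono {Q : Finset ℕ} (hQ : ∀ l ∈ Q, 2 ≤ l) (p : ℕ) (R : ℝ) :
    Gs (Q.erase p) R ≤ Gs Q R := by
  unfold Gs
  refine sum_le_sum_of_subset_of_nonneg (PTW_pr_erase Q p R) fun K hK _ => ?_
  have hKQ : K ⊆ Q := by
    unfold Pool.Agent.helper71.AA.Sub at hK
    exact mem_powerset.1 (mem_filter.1 hK).1
  have := PTW_ph_pos hQ hKQ
  positivity

theorem PTW : PTW_stmt := by
  intro w hw η hη hη1
  refine ⟨2, ?_⟩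
  intro X P hX hP a₀ b hab ξ₁ ξ₂ ξ₃ hξ a ha p hp hwp hsqf
  have hX1 : 1 < X := by linarith
  have hX0 : 0 < X := by linarith
  have hL : 0 < Real.log X := Real.log_pos hX1
  set G := Gs (Qm w X η) (Rr X) with hG
  have hQ2 : ∀ l ∈ Qm w X η, 2 ≤ l := by
    intro l hl
    unfold Qm Qs at hl
    exact (mem_filter.1 hl).2.two_le
  have hG0 : 0 ≤ G := PTW_Gs_nonneg hQ2 _
  have hR0 : (0 : ℝ) ≤ if p ∈ Gp2 a P (X ^ (0.13 : ℝ)) then G ^ 2 else 0 := by
    split_ifs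
    · positivity
    · exact le_rfl
  by_cases hcond : Az (Qm w X η) p (a : ℤ) = ∅ ∧ |((a : ℤ) : ℝ)| ≤ X ^ 2
  swap
  · have e : ∀ ξ : Finset ℕ → ℝ, ft w X η ξ p (a : ℤ) = 0 := by
      intro ξ
      unfold ft
      rw [if_neg hcond]
    rw [e, e, e]
    simpa using hR0
  -- basic facts
  have hpP := hp
  unfold Ps at hpP
  rw [mem_filter, mem_Icc] at hpP
  obtain ⟨⟨hp1, hpf⟩, hpp, hpW⟩ := hpP
  have hpPr : (p : ℝ) ≤ P := (Nat.le_floor_iff' (by omega)).1 hpf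
  have haX := ha
  unfold As at haX
  rw [mem_filter, mem_Icc] at haX
  obtain ⟨⟨ha1, haf⟩, haW⟩ := haX
  have haXr : (a : ℝ) ≤ X := (Nat.le_floor_iff' (by omega)).1 haf
  have h4 : 4 ≤ a * p ^ 2 := by nlinarith [Nat.pow_le_pow_left hpp.two_le 2]
  set n := a * p ^ 2 - 1 with hn
  have hn0 : 0 < n := by omega
  have hnX : (n : ℝ) ≤ X ^ (1.0002 : ℝ) := by
    calc (n : ℝ) ≤ ((a * p ^ 2 : ℕ) : ℝ) := by
          exact_mod_cast Nat.sub_le _ _
      _ = (a : ℝ) * (p : ℝ) ^ 2 := by push_cast; ring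
      _ ≤ X * (X ^ (0.0001 : ℝ)) ^ 2 := by
          have h5 : (p : ℝ) ≤ X ^ (0.0001 : ℝ) := hpPr.trans hP
          have h6 : (p : ℝ) ^ 2 ≤ (X ^ (0.0001 : ℝ)) ^ 2 :=
            pow_le_pow_left₀ (Nat.cast_nonneg p) h5 2
          exact mul_le_mul haXr h6 (by positivity) hX0.le
      _ = X ^ (1.0002 : ℝ) := by
          rw [← Real.rpow_natCast (X ^ (0.0001 : ℝ)) 2, ← Real.rpow_mul hX0.le]
          conv_lhs => rw [← Real.rpow_one X]
          rw [← Real.rpow_mul hX0.le, ← Real.rpow_add hX0]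
          norm_num
  have hlogn : Real.log n ≤ 1.0002 * Real.log X := by
    calc Real.log n ≤ Real.log (X ^ (1.0002 : ℝ)) :=
          Real.log_le_log (by exact_mod_cast hn0) hnX
      _ = 1.0002 * Real.log X := Real.log_rpow hX0 _
  set T := Az (Ql X η) p (a : ℤ) with hT
  have hTQ : T ⊆ Ql X η := by
    rw [hT]
    unfold Az
    exact filter_subset _ _
  set g := Gs ((Qm w X η).erase p) (Rr X) with hg
  have hg0 : 0 ≤ g := PTW_Gs_nonneg (fun l hl => hQ2 l (mem_of_mem_erase hl)) _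
  have hgG : g ≤ G := PTW_Gs_mono hQ2 p _
  have e : ∀ ξ : Finset ℕ → ℝ, ft w X η ξ p (a : ℤ) = g ^ 2 * U ξ T := by
    intro ξ
    unfold ft fw
    rw [if_pos hcond, hcond.1, PTW_Sg_empty]
  rw [e, e, e]
  have hmain : g ^ 2 * U ξ₁ T - g ^ 2 * U ξ₂ T - lamR * (g ^ 2 * U ξ₃ T) =
      g ^ 2 * (U ξ₁ T - U ξ₂ T - lamR * U ξ₃ T) := by ring
  rw [hmain]
  have hb := hξ T hTQ
  have hg2 : 0 ≤ g ^ 2 := sq_nonneg _
  by_cases hsm : ∃ l ∈ T, (l : ℝ) ≤ X ^ (0.13825 : ℝ)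
  · rw [if_pos hsm] at hb
    exact (mul_nonpos_of_nonneg_of_nonpos hg2 hb).trans hR0
  rw [if_neg hsm] at hb
  push Not at hsm
  -- the prime factors of `n`
  have hbig : ∀ l : ℕ, l ∈ n.primeFactors → (l ∈ T ∨ X ^ (0.47 : ℝ) < (l : ℝ)) := by
    intro l hl
    have hlp := Nat.prime_of_mem_primeFactors hl
    have hld := Nat.dvd_of_mem_primeFactors hl
    have hwl : w < l := L1_large hab ha1 hp1 haW hpW hlp hld
    have hldz : (l : ℤ) ∣ (a : ℤ) * (p : ℤ) ^ 2 - 1 := (PTW_dvd_iff (by omega)).2 hld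
    by_cases h1 : l ≤ ⌊X ^ η⌋₊
    · exfalso
      have h2 : l ∈ Az (Qm w X η) p (a : ℤ) := by
        unfold Az Qm Qs
        rw [mem_filter, mem_filter, mem_Ioc]
        exact ⟨⟨⟨hwl, h1⟩, hlp⟩, hldz⟩
      rw [hcond.1] at h2
      exact notMem_empty _ h2
    · by_cases h2 : l ≤ ⌊X ^ (0.47 : ℝ)⌋₊
      · left
        rw [hT]
        unfold Az Ql Qs
        rw [mem_filter, mem_filter, mem_Ioc]
        exact ⟨⟨⟨not_le.1 h1, h2⟩, hlp⟩, hldz⟩
      · right
        exact Nat.lt_of_floor_lt (not_le.1 h2)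
  have hbig2 : ∀ l : ℕ, l ∈ n.primeFactors → X ^ (0.13 : ℝ) < (l : ℝ) := by
    intro l hl
    rcases hbig l hl with h | h
    · refine lt_of_le_of_lt ?_ (hsm l h)
      exact Real.rpow_le_rpow_of_exponent_le hX1.le (by norm_num)
    · refine lt_of_le_of_lt ?_ h
      exact Real.rpow_le_rpow_of_exponent_le hX1.le (by norm_num)
  -- terms of the sum over `T`
  have hTterm : ∀ q ∈ T, 0 ≤ 1 - Real.log q / (0.47 * Real.log X) := by
    intro q hq
    have hqQ := hTQ hq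
    unfold Ql Qs at hqQ
    rw [mem_filter, mem_Ioc] at hqQ
    obtain ⟨⟨_, hq2⟩, hqp⟩ := hqQ
    have hq0 : (0 : ℝ) < q := by exact_mod_cast hqp.pos
    have hq3 : (q : ℝ) ≤ X ^ (0.47 : ℝ) := (Nat.le_floor_iff' hqp.ne_zero).1 hq2
    have h5 : Real.log q ≤ 0.47 * Real.log X := by
      calc Real.log q ≤ Real.log (X ^ (0.47 : ℝ)) := Real.log_le_log hq0 hq3
        _ = 0.47 * Real.log X := Real.log_rpow hX0 _
    have h6 : Real.log q / (0.47 * Real.log X) ≤ 1 := by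
      rw [div_le_one (by positivity)]; exact h5
    linarith
  have hTsum0 : 0 ≤ ∑ q ∈ T, (1 - Real.log q / (0.47 * Real.log X)) := sum_nonneg hTterm
  have hlam0 : 0 < lamR := by unfold lamR; norm_num
  by_cases hgp : p ∈ Gp2 a P (X ^ (0.13 : ℝ))
  · rw [if_pos hgp]
    have h5 : U ξ₁ T - U ξ₂ T - lamR * U ξ₃ T ≤ 1 := by
      have : 0 ≤ lamR * ∑ q ∈ T, (1 - Real.log q / (0.47 * Real.log X)) :=
        mul_nonneg hlam0.le hTsum0
      linarith
    calc g ^ 2 * (U ξ₁ T - U ξ₂ T - lamR * U ξ₃ T) ≤ g ^ 2 * 1 :=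
          mul_le_mul_of_nonneg_left h5 hg2
      _ = g ^ 2 := mul_one _
      _ ≤ G ^ 2 := pow_le_pow_left₀ hg0 hgG 2
  · rw [if_neg hgp]
    have hsq : Squarefree n := by
      rw [Nat.squarefree_iff_prime_squarefree]
      intro l hlp hll
      have hld : l ∣ n := (dvd_mul_right l l).trans hll
      have hlm : l ∈ n.primeFactors := Nat.mem_primeFactors.2 ⟨hlp, hld, hn0.ne'⟩
      apply hsqf l hlp (hbig2 l hlm)
      rw [sq]
      exact hll
    have hlen : 3 ≤ n.primeFactors.card := by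
      rw [← L1_Ω hn0 hsq]
      by_contra hcon
      apply hgp
      unfold Gp2
      rw [mem_filter, mem_Icc]
      exact ⟨⟨hp1, hpf⟩, hpp, (by rw [← hn]; omega), hbig2⟩
    have hTn : T ⊆ n.primeFactors := by
      intro q hq
      have hqQ := hTQ hq
      unfold Ql Qs at hqQ
      rw [mem_filter, mem_Ioc] at hqQ
      rw [hT] at hq
      unfold Az at hq
      rw [mem_filter] at hq
      exact Nat.mem_primeFactors.2 ⟨hqQ.2, (PTW_dvd_iff (by omega)).1 hq.2, hn0.ne'⟩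
    have hsum1 : ∑ q ∈ n.primeFactors, (1 - Real.log q / (0.47 * Real.log X)) ≤
        ∑ q ∈ T, (1 - Real.log q / (0.47 * Real.log X)) := by
      rw [← sum_sdiff hTn]
      have : ∑ q ∈ n.primeFactors \ T, (1 - Real.log q / (0.47 * Real.log X)) ≤ 0 := by
        refine sum_nonpos fun q hq => ?_
        rw [mem_sdiff] at hq
        have h5 : X ^ (0.47 : ℝ) < (q : ℝ) := by
          rcases hbig q hq.1 with h | h
          · exact absurd h hq.2
          · exact h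
        have h6 : 0.47 * Real.log X ≤ Real.log q := by
          calc 0.47 * Real.log X = Real.log (X ^ (0.47 : ℝ)) := (Real.log_rpow hX0 _).symm
            _ ≤ Real.log q := Real.log_le_log (Real.rpow_pos_of_pos hX0 _) h5.le
        have h7 : 1 ≤ Real.log q / (0.47 * Real.log X) := by
          rw [le_div_iff₀ (by positivity)]
          linarith
        linarith
      linarith
    have hsum2 : ∑ q ∈ n.primeFactors, Real.log (q : ℝ) = Real.log n := by
      have h5 : ∏ q ∈ n.primeFactors, q = n := Nat.prod_primeFactors_of_squarefree hsq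
      have h6 : ((∏ q ∈ n.primeFactors, q : ℕ) : ℝ) = (n : ℝ) := by rw [h5]
      rw [Nat.cast_prod] at h6
      rw [← h6, Real.log_prod]
      intro q hq
      have := (Nat.prime_of_mem_primeFactors hq).pos
      positivity
    have hsum3 : (3 : ℝ) - 1.0002 / 0.47 ≤
        ∑ q ∈ n.primeFactors, (1 - Real.log q / (0.47 * Real.log X)) := by
      rw [sum_sub_distrib, sum_const, nsmul_eq_mul, mul_one, ← sum_div, hsum2]
      have h5 : (3 : ℝ) ≤ (n.primeFactors.card : ℝ) := by exact_mod_cast hlen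
      have h6 : Real.log n / (0.47 * Real.log X) ≤ 1.0002 / 0.47 := by
        rw [div_le_div_iff₀ (by positivity) (by norm_num)]
        nlinarith
      linarith
    have h7 : 1 ≤ lamR * ∑ q ∈ T, (1 - Real.log q / (0.47 * Real.log X)) := by
      have h8 : (3 : ℝ) - 1.0002 / 0.47 ≤ ∑ q ∈ T, (1 - Real.log q / (0.47 * Real.log X)) :=
        hsum3.trans hsum1
      have h9 : lamR * (3 - 1.0002 / 0.47) = 1 := by
        unfold lamR; norm_num
      calc (1 : ℝ) = lamR * (3 - 1.0002 / 0.47) := h9.symm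
        _ ≤ _ := mul_le_mul_of_nonneg_left h8 hlam0.le
    exact mul_nonpos_of_nonneg_of_nonpos hg2 (by linarith)

end Pool.Agent.PT
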